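import Pool.Agent.NQF.Final2

/-!
# MP_6ea1bd_co: the number of n-queens configurations up to a factor 1 + o(1)

`Q(n) = (1 + o(1)) e^c √n (n e^(-α))^n`, that is `E(n) = (1/2) log n + c + o(1)`. Here `1 - α` is the maximum of the
entropy functional `Phi` over all queenons (Simkin's problem), attained at a single queenon `w` (up to null sets), which is bounded and bounded away from zero on the square, and
`c` is the supremum of `(1/2) log (4 π) + K w m X` over all `m ≥ 1` and all positive definite matrices `X`: the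
entropy of a Gaussian vector on the rows, columns and diagonals of an `m × m` board minus its energy, minus
`(3/2) ∫ w²`; `(1/2) log (4 π)` is the maximum of `- ∫ f log f - (1/4) ∫ x² f` over the densities `f` on the line.
The definitions are in `NQF/Stmt.lean`.
-/

namespace Pool.Agent.Results.MP_6ea1bd_co.FullAsymptotics

open Pool.Agent.NQF.Stmt Filter Topology MeasureTheory

theorem result : ∃ α c : ℝ,
    Tendsto (fun n : ℕ => (n * Real.log n - Real.log (Q n)) / n) atTop (𝓝 α) ∧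
    Tendsto (fun n : ℕ => Real.log (Q n) - n * Real.log n + α * n - Real.log n / 2) atTop (𝓝 c) ∧
    Tendsto (fun n : ℕ => Q n / (Real.exp c * Real.sqrt n * (n * Real.exp (-α)) ^ n)) atTop (𝓝 1) ∧
    IsGreatest {t : ℝ | ∃ v, Queenon v ∧ t = Phi v} (1 - α) ∧
    (∀ v v', Queenon v → Queenon v' → Phi v = 1 - α → Phi v' = 1 - α → v =ᵐ[volume] v') ∧
    (∀ v, Queenon v → Phi v = 1 - α → ∃ L : ℝ, 0 < L ∧
      ∀ᵐ p : ℝ × ℝ, p ∈ Set.Ico (0 : ℝ) 1 ×ˢ Set.Ico (0 : ℝ) 1 → 1 / L ≤ v p ∧ v p ≤ L) ∧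
    IsLUB {t : ℝ | ∃ v, Queenon v ∧ Phi v = 1 - α ∧ ∃ (m : ℕ) (X : Matrix (Line m) (Line m) ℝ),
      1 ≤ m ∧ X.PosDef ∧ t = Real.log (4 * Real.pi) / 2 + K v m X} c ∧
    IsGreatest {t : ℝ | ∃ f, Dens f ∧ t = -(∫ x, f x * Real.log (f x)) - (∫ x, x ^ 2 * f x) / 4}
      (Real.log (4 * Real.pi) / 2) :=
  Pool.Agent.NQF.final2

end Pool.Agent.Results.MP_6ea1bd_co.FullAsymptotics
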