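import Pool.Agent.NQR.KLim

/-!
# MP_6ea1bd_co: the ratio of consecutive n-queens counts

There are real numbers `α` and `C` such that `(n log n - log Q(n))/n → α` and for all `n ≥ 1`
`|log Q(n+1) - log Q(n) - log n - 1 + α| ≤ C n^(-1/30000)`,
where `Q(n)` is the number of configurations of `n` non-attacking queens. So
`Q(n+1)/Q(n) = e^(1-α) n (1 + O(n^(-1/30000)))`, that is `E(n+1) - E(n) = O(n^(-1/30000))`.
-/

namespace Pool.Agent.Results.MP_6ea1bd_co.RatioLimit

open Pool.Agent.NQ Filter Topology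

theorem result : ∃ α C : ℝ,
    Tendsto (fun n : ℕ => (n * Real.log n - Real.log (QN n)) / n) atTop (𝓝 α) ∧
    ∀ n : ℕ, 1 ≤ n → |Real.log (QN (n + 1)) - Real.log (QN n) - Real.log n - 1 + α| ≤
      C * (n : ℝ) ^ (-(1 / 30000) : ℝ) :=
  Pool.Agent.NQR.main

end Pool.Agent.Results.MP_6ea1bd_co.RatioLimit
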